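import Pool.Agent.Work.MP_017613_gt.TopLit

/-!
# Normal subgroups of homeomorphism groups of compact Menger manifolds: the second question

Let `n ≥ 1` and let `M` be a compact connected `μ^{n+1}`-manifold: every point has an open
neighbourhood homeomorphic to an open subset of the universal `(n+1)`-dimensional Menger compactum
`menger (n + 1) (2 * (n + 1) + 1)`. Then the group `Auth0 n M` of the homeomorphisms of `M` which are
`n`-homotopic to the identity is a simple group. The last clause says that it makes no difference
whether the test spaces `P` in the definition of `n`-homotopic maps are compact polyhedra or all CW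
complexes of dimension at most `n`.
-/

set_option autoImplicit false

namespace Pool.Agent.Results.MP_017613_gt.Auth0Simple

open MG

/-- For every `n ≥ 1` and every compact connected `μ^{n+1}`-manifold `M`, the group `Auth0 n M` of
the homeomorphisms of `M` which are `n`-homotopic to the identity is simple. -/
theorem result.{u} :
    ∀ (n : ℕ), 1 ≤ n → ∀ (M : Type) [TopologicalSpace M] [CompactSpace M]
      [TopologicalSpace.MetrizableSpace M] [ConnectedSpace M], IsMengerManifold (n + 1) M →
      IsSimpleGroup (Auth0 n M) ∧ Auth0CW.{u} n M = Auth0 n M := by
  intro n hn M _ _ _ _ hM'
  have hM := isMengerManifold_iff.1 hM'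
  exact ⟨(main n hn M hM).2.2.2, auth0CW_eq.{u} hn M hM⟩

end Pool.Agent.Results.MP_017613_gt.Auth0Simple
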